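import Mathlib
import Pool.Agent.Helper96.LB3.Stmts

/-!
Row IMP: the improvement of a pair with ratio larger than one.
-/

set_option autoImplicit false

open MeasureTheory Module
open scoped ENNReal

namespace Pool.Agent.Helper25.LB3

open Pool.Agent.Helper96.LB3

/-- the geometric mean of the shrunk heights -/
theorem imp_gm {a b lam mu δ q : ℝ} (hlam : 0 ≤ lam) (hmu : 0 ≤ mu)
    (hδ : 0 ≤ δ) (hδ1 : δ ≤ 1) (hq : 0 ≤ q) (h1 : lam * q ≤ a) (h2 : mu * q ≤ b) :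
    √((a - δ * lam * q) * (b - δ * mu * q)) ≤ √(a * b) - δ * √(lam * mu) * q := by
  have ha : 0 ≤ a := (mul_nonneg hlam hq).trans h1
  have hb : 0 ≤ b := (mul_nonneg hmu hq).trans h2
  have h3 : √(lam * mu) * q ≤ √(a * b) := by
    apply Real.le_sqrt_of_sq_le
    rw [mul_pow, Real.sq_sqrt (mul_nonneg hlam hmu)]
    calc lam * mu * q ^ 2 = (lam * q) * (mu * q) := by ring
      _ ≤ a * b := mul_le_mul h1 h2 (mul_nonneg hmu hq) ha
  have h4 : 0 ≤ √(lam * mu) * q := mul_nonneg (Real.sqrt_nonneg _) hq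
  have h5 : 0 ≤ √(a * b) - δ * √(lam * mu) * q := by
    have : δ * (√(lam * mu) * q) ≤ 1 * (√(lam * mu) * q) := mul_le_mul_of_nonneg_right hδ1 h4
    linarith
  apply Real.sqrt_le_iff.mpr
  refine ⟨h5, ?_⟩
  have h6 : √(lam * mu) ^ 2 = lam * mu := Real.sq_sqrt (mul_nonneg hlam hmu)
  have h7 : √(a * b) ^ 2 = a * b := Real.sq_sqrt (mul_nonneg ha hb)
  have h8 : 2 * (√(lam * mu) * √(a * b)) ≤ lam * b + mu * a := by
    have h9 : √(lam * mu) * √(a * b) = √(lam * b) * √(mu * a) := by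
      rw [← Real.sqrt_mul (mul_nonneg hlam hmu), ← Real.sqrt_mul (mul_nonneg hlam hb)]
      congr 1
      ring
    have h10 : √(lam * b) ^ 2 = lam * b := Real.sq_sqrt (mul_nonneg hlam hb)
    have h11 : √(mu * a) ^ 2 = mu * a := Real.sq_sqrt (mul_nonneg hmu ha)
    have h12 := sq_nonneg (√(lam * b) - √(mu * a))
    rw [h9]
    nlinarith
  have h9 : 0 ≤ δ * q := mul_nonneg hδ hq
  have h10 := mul_le_mul_of_nonneg_left h8 h9
  calc (a - δ * lam * q) * (b - δ * mu * q) = a * b - δ * q * (lam * b + mu * a) +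
        δ ^ 2 * q ^ 2 * (lam * mu) := by ring
    _ ≤ a * b - δ * q * (2 * (√(lam * mu) * √(a * b))) + δ ^ 2 * q ^ 2 * (lam * mu) := by
        linarith
    _ = √(a * b) ^ 2 - δ * q * (2 * (√(lam * mu) * √(a * b))) +
        δ ^ 2 * q ^ 2 * √(lam * mu) ^ 2 := by rw [h6, h7]
    _ = (√(a * b) - δ * √(lam * mu) * q) ^ 2 := by ring

/-- Row IMP -/
theorem st_IMP (vo0 : ST_VO0) (vo1 : ST_VO1) (vo2 : ST_VO2) (vo3 : ST_VO3) : ST_IMP := by
  intro Y ι _ _ _ _ _ ν _ _ β q hB hY hp hm hp0 hm0 hA θ hθ hR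
  have hg0 : ∀ u, 0 < gm hp hm u := fun u => Real.sqrt_pos.mpr (mul_pos (hp0 u) (hm0 u))
  obtain ⟨m, hm'⟩ : ∃ m : ℝ, m = (finrank ℝ Y : ℝ) := ⟨_, rfl⟩
  have hm1 : 1 ≤ m := by
    rw [hm']
    exact_mod_cast hY
  obtain ⟨hVp, hPp, -⟩ := vo0 Y ι ν β q hB hp hp0
  obtain ⟨hVm, hPm, -⟩ := vo0 Y ι ν β q hB hm hm0
  obtain ⟨hV0, hP0, -⟩ := vo0 Y ι ν β q hB (gm hp hm) hg0
  have h1p := vo1 Y ι ν β q hB hp hp0
  have h1m := vo1 Y ι ν β q hB hm hm0
  have h2 := vo2 Y ι ν β q hB (gm hp hm) hg0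
  have h3p := vo3 Y ι ν β q hB hp hp0
  have h3m := vo3 Y ι ν β q hB hm hm0
  rw [← hm'] at h2 ⊢
  obtain ⟨Vp, eVp⟩ : ∃ a : ℝ, a = VB ν β q hp := ⟨_, rfl⟩
  obtain ⟨Vm, eVm⟩ : ∃ a : ℝ, a = VB ν β q hm := ⟨_, rfl⟩
  obtain ⟨V0, eV0⟩ : ∃ a : ℝ, a = VB ν β q (gm hp hm) := ⟨_, rfl⟩
  obtain ⟨Pp, ePp⟩ : ∃ a : ℝ, a = AB ν β q hp := ⟨_, rfl⟩
  obtain ⟨Pm, ePm⟩ : ∃ a : ℝ, a = AB ν β q hm := ⟨_, rfl⟩
  obtain ⟨P0, eP0⟩ : ∃ a : ℝ, a = AB ν β q (gm hp hm) := ⟨_, rfl⟩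
  rw [← eVp] at hVp h1p h3p hR
  rw [← eVm] at hVm h1m h3m hR
  rw [← eV0] at hV0 h2 hR
  rw [← ePp] at hPp h1p h3p hA
  rw [← ePm] at hPm h1m h3m hA
  rw [← eP0] at hP0 h2 hA
  have hθ0 : 0 < θ := by linarith
  have hm0' : 0 < m := by linarith
  obtain ⟨δ, eδ⟩ : ∃ δ : ℝ, δ = (θ - 1) / (2 * m * θ ^ 2) := ⟨_, rfl⟩
  have hδ0 : 0 < δ := by
    rw [eδ]
    apply div_pos (by linarith)
    positivity
  have hδm : m * δ * θ ^ 2 = (θ - 1) / 2 := by
    rw [eδ]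
    field_simp
  have hδ1 : δ < 1 := by
    have h1 : 1 * δ * θ ^ 2 ≤ m * δ * θ ^ 2 := by
      apply mul_le_mul_of_nonneg_right _ (sq_nonneg θ)
      exact mul_le_mul_of_nonneg_right hm1 hδ0.le
    by_contra hc
    push Not at hc
    have h2 : 1 * θ ^ 2 ≤ δ * θ ^ 2 := mul_le_mul_of_nonneg_right hc (sq_nonneg θ)
    nlinarith
  have hδθ : δ * θ ≤ 1 := by
    have h1 : (1 * δ * θ) * θ ≤ (θ - 1) / 2 := by
      rw [← hδm]
      have : 1 * (δ * θ ^ 2) ≤ m * (δ * θ ^ 2) :=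
        mul_le_mul_of_nonneg_right hm1 (by positivity)
      linarith
    by_contra hc
    push Not at hc
    have h2 : 1 * θ ≤ δ * θ * θ := mul_le_mul_of_nonneg_right hc.le hθ0.le
    linarith
  obtain ⟨lam, el⟩ : ∃ l : ℝ, l = Vp / (2 * Pp) := ⟨_, rfl⟩
  obtain ⟨mu, em⟩ : ∃ l : ℝ, l = Vm / (2 * Pm) := ⟨_, rfl⟩
  have hl0 : 0 < lam := by rw [el]; positivity
  have hmu0 : 0 < mu := by rw [em]; positivity
  have hlV : 2 * lam * Pp = Vp := by rw [el]; field_simp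
  have hmV : 2 * mu * Pm = Vm := by rw [em]; field_simp
  have hlq : ∀ u, lam * |q u| ≤ hp u := by
    intro u
    have h1 := h3p u
    rw [← hlV] at h1
    have h2 : (2 * Pp) * (lam * |q u|) ≤ (2 * Pp) * hp u := by linarith
    exact le_of_mul_le_mul_left h2 (by positivity)
  have hmq : ∀ u, mu * |q u| ≤ hm u := by
    intro u
    have h1 := h3m u
    rw [← hmV] at h1
    have h2 : (2 * Pm) * (mu * |q u|) ≤ (2 * Pm) * hm u := by linarith
    exact le_of_mul_le_mul_left h2 (by positivity)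
  have hp'0 : ∀ u, 0 < hp u - δ * lam * |q u| := by
    intro u
    have h1 := mul_le_mul_of_nonneg_left (hlq u) hδ0.le
    have h2 : δ * hp u < 1 * hp u := mul_lt_mul_of_pos_right hδ1 (hp0 u)
    linarith
  have hm'0 : ∀ u, 0 < hm u - δ * mu * |q u| := by
    intro u
    have h1 := mul_le_mul_of_nonneg_left (hmq u) hδ0.le
    have h2 : δ * hm u < 1 * hm u := mul_lt_mul_of_pos_right hδ1 (hm0 u)
    linarith
  refine ⟨fun u => hp u - δ * lam * |q u|, fun u => hm u - δ * mu * |q u|, hp'0, hm'0, ?_⟩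
  have hp1 := h1p (δ * lam) (by positivity)
  have hm1' := h1m (δ * mu) (by positivity)
  have hpe : Vp - 2 * (δ * lam) * Pp = (1 - δ) * Vp := by rw [← hlV]; ring
  have hme : Vm - 2 * (δ * mu) * Pm = (1 - δ) * Vm := by rw [← hmV]; ring
  rw [hpe] at hp1
  rw [hme] at hm1'
  -- the shrinking parameter of the middle body
  obtain ⟨t, et⟩ : ∃ t : ℝ, t = δ * θ * V0 / (2 * P0) := ⟨_, rfl⟩
  have ht0 : 0 < t := by rw [et]; positivity
  have htP : 2 * t * P0 = δ * θ * V0 := by rw [et]; field_simp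
  have hts : t ≤ δ * √(lam * mu) := by
    have h1 : (θ * V0) ^ 2 = Vp * Vm := by
      rw [← hR, Real.sq_sqrt (by positivity)]
    have h2 : θ * V0 / (2 * P0) ≤ √(lam * mu) := by
      apply Real.le_sqrt_of_sq_le
      rw [div_pow, h1, el, em, div_mul_div_comm]
      apply div_le_div_of_nonneg_left (by positivity) (by positivity)
      nlinarith
    calc t = δ * (θ * V0 / (2 * P0)) := by rw [et]; ring
      _ ≤ _ := mul_le_mul_of_nonneg_left h2 hδ0.le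
  have hgm : ∀ u, gm (fun u => hp u - δ * lam * |q u|) (fun u => hm u - δ * mu * |q u|) u ≤
      gm hp hm u - t * |q u| := by
    intro u
    have h1 := imp_gm hl0.le hmu0.le hδ0.le hδ1.le (abs_nonneg (q u)) (hlq u) (hmq u)
    have h2 := mul_le_mul_of_nonneg_right hts (abs_nonneg (q u))
    refine h1.trans ?_
    unfold gm
    linarith
  have hg'0 : ∀ u, 0 < gm hp hm u - t * |q u| := by
    intro u
    refine lt_of_lt_of_le ?_ (hgm u)
    exact Real.sqrt_pos.mpr (mul_pos (hp'0 u) (hm'0 u))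
  have hV' := (vo0 Y ι ν β q hB _ hg'0).2.2 _ hgm
  have hV'' := h2 t ht0.le (by
    rw [htP]
    calc δ * θ * V0 ≤ 1 * V0 := mul_le_mul_of_nonneg_right hδθ hV0.le
      _ = V0 := one_mul _)
  rw [htP] at hV''
  have hdiv : δ * θ * V0 / V0 = δ * θ := by field_simp
  rw [hdiv] at hV''
  obtain ⟨x, ex⟩ : ∃ x : ℝ, x = δ * (θ - 1) / 2 := ⟨_, rfl⟩
  have hx0 : 0 ≤ x := by
    rw [ex]
    have : 0 ≤ δ * (θ - 1) := mul_nonneg hδ0.le (by linarith)
    linarith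
  have hfin : VB ν β q (gm (fun u => hp u - δ * lam * |q u|)
      (fun u => hm u - δ * mu * |q u|)) ≤ V0 * (1 - δ - x) := by
    refine (hV'.trans hV'').trans (le_of_eq ?_)
    have h1 : m * (δ * θ) * (δ * θ) = x := by
      calc m * (δ * θ) * (δ * θ) = δ * (m * δ * θ ^ 2) := by ring
        _ = x := by rw [hδm, ex]; ring
    calc V0 - δ * θ * V0 * (1 - m * (δ * θ)) =
        V0 * (1 - δ * θ + m * (δ * θ) * (δ * θ)) := by ring
      _ = V0 * (1 - δ * θ + x) := by rw [h1]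
      _ = V0 * (1 - δ - x) := by rw [ex]; ring
  have hθx : θ + (θ - 1) ^ 2 / (4 * m * θ) = θ * (1 + x) := by
    rw [ex, eδ]
    field_simp
    ring
  rw [hθx]
  have h1 : θ * (1 + x) * VB ν β q (gm (fun u => hp u - δ * lam * |q u|)
      (fun u => hm u - δ * mu * |q u|)) ≤ θ * (1 + x) * (V0 * (1 - δ - x)) :=
    mul_le_mul_of_nonneg_left hfin (by positivity)
  refine h1.trans ?_
  have h4 : θ * (1 + x) * (V0 * (1 - δ - x)) ≤ (1 - δ) * √(Vp * Vm) := by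
    rw [hR]
    have h5 : 0 ≤ θ * V0 * (x * δ + x ^ 2) := by positivity
    nlinarith
  refine h4.trans ?_
  apply Real.le_sqrt_of_sq_le
  rw [mul_pow, Real.sq_sqrt (by positivity)]
  calc (1 - δ) ^ 2 * (Vp * Vm) = ((1 - δ) * Vp) * ((1 - δ) * Vm) := by ring
    _ ≤ _ := mul_le_mul hp1 hm1' (mul_nonneg (by linarith) hVm.le)
      ((mul_nonneg (by linarith) hVp.le).trans hp1)

end Pool.Agent.Helper25.LB3
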