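import Mathlib
import Pool.Agent.Helper96.LB3.Stmts

/-!
Row SUP: the supremum argument.
-/

set_option autoImplicit false

open MeasureTheory Module
open scoped ENNReal

namespace Pool.Agent.Helper25.LB3

open Pool.Agent.Helper96.LB3

section

variable {X ι : Type} [NormedAddCommGroup X] [NormedSpace ℝ X] [FiniteDimensional ℝ X]
  [MeasurableSpace X] [BorelSpace X] (μ : Measure X) [μ.IsAddHaarMeasure] [Fintype ι]
  (φ : ι → X →ₗ[ℝ] ℝ)

/-- a pair with ratio at least `θ` -/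
def Pr (θ : ℝ) : Prop :=
  ∃ hp hm : ι → ℝ, (∀ u, 0 < hp u) ∧ (∀ u, 0 < hm u) ∧
    θ * VS μ φ (gm hp hm) ≤ √(VS μ φ hp * VS μ φ hm)

theorem gm_pos {ι : Type} {hp hm : ι → ℝ} (h1 : ∀ u, 0 < hp u) (h2 : ∀ u, 0 < hm u) (u : ι) :
    0 < gm hp hm u :=
  Real.sqrt_pos.mpr (mul_pos (h1 u) (h2 u))

theorem vs_nonneg (h : ι → ℝ) : 0 ≤ VS μ φ h := measureReal_nonneg

theorem pr_mono {θ θ' : ℝ} (h : Pr μ φ θ) (hle : θ' ≤ θ) : Pr μ φ θ' := by
  obtain ⟨hp, hm, h1, h2, h3⟩ := h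
  exact ⟨hp, hm, h1, h2, (mul_le_mul_of_nonneg_right hle (vs_nonneg μ φ _)).trans h3⟩

/-- the improvement -/
theorem pr_step (pos : ST_POS) (tig : ST_TIG) (prp : ST_PRP) (lin : ST_LIN) (vo0 : ST_VO0)
    (imp : ST_IMP) (d : ℕ) (hd : 2 ≤ d) (pw : PWd d) (hX : finrank ℝ X = d) (hsep : Sep φ)
    (hne : ∀ u, φ u ≠ 0) (θ : ℝ) (hθ : 1 < θ) (h : Pr μ φ θ) :
    Pr μ φ (θ + (θ - 1) ^ 2 / (4 * ((d : ℝ) - 1) * θ)) := by
  obtain ⟨hp, hm, hp0, hm0, hR⟩ := h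
  obtain ⟨hp1, hp10, hp1le, hKp, htp⟩ := tig X ι φ hp hsep hne hp0
  obtain ⟨hm1, hm10, hm1le, hKm, htm⟩ := tig X ι φ hm hsep hne hm0
  have hVp : VS μ φ hp1 = VS μ φ hp := by unfold VS; rw [hKp]
  have hVm : VS μ φ hm1 = VS μ φ hm := by unfold VS; rw [hKm]
  have hfin := (pos X ι μ φ (gm hp hm) hsep (gm_pos hp0 hm0)).2.2.2
  have hsub : KS φ (gm hp1 hm1) ⊆ KS φ (gm hp hm) := by
    intro x hx u
    refine (hx u).trans ?_
    exact Real.sqrt_le_sqrt (mul_le_mul (hp1le u) (hm1le u) (hm10 u).le (hp0 u).le)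
  have hVg : VS μ φ (gm hp1 hm1) ≤ VS μ φ (gm hp hm) := measureReal_mono hsub hfin.ne
  have hg0 : 0 < VS μ φ (gm hp1 hm1) :=
    (pos X ι μ φ (gm hp1 hm1) hsep (gm_pos hp10 hm10)).2.2.1
  have hR1 : θ * VS μ φ (gm hp1 hm1) ≤ √(VS μ φ hp1 * VS μ φ hm1) := by
    rw [hVp, hVm]
    exact (mul_le_mul_of_nonneg_left hVg (by linarith)).trans hR
  have hnp : ¬ Prop' hp1 hm1 := by
    intro hprop
    have h1 := prp X ι μ φ hp1 hm1 hp10 hm10 hprop
    rw [h1, Real.sqrt_sq hg0.le] at hR1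
    have : VS μ φ (gm hp1 hm1) * (θ - 1) ≤ 0 := by linarith
    have h2 : 0 < VS μ φ (gm hp1 hm1) * (θ - 1) := mul_pos hg0 (by linarith)
    linarith
  obtain ⟨Y, _, _, _, _, _, ν, _, L, hPW⟩ := pw X ι φ hX hsep hne hp1 hm1 hp10 hm10 htp htm hnp
  unfold PW at hPW
  obtain ⟨β, hβ⟩ : ∃ β : ι → Y →ₗ[ℝ] ℝ,
    β = fun u => (φ u).comp (L.toLinearMap.comp (LinearMap.inl ℝ Y ℝ)) := ⟨_, rfl⟩
  obtain ⟨q, hq⟩ : ∃ q : ι → ℝ, q = fun u => φ u (L (0, 1)) := ⟨_, rfl⟩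
  obtain ⟨c, hc0, hc⟩ := lin X Y ι μ ν φ L
  rw [← hβ, ← hq] at hPW hc
  have hB : SepB β q := by
    intro y z hyz
    have h1 : L (y, z) = 0 := by
      apply hsep
      intro u
      have h2 := hyz u
      rw [hβ, hq] at h2
      have h3 : L (y, z) = L (y, 0) + z • L (0, 1) := by
        rw [← map_smul, ← map_add]
        congr 1
        ext <;> simp
      rw [h3, map_add, map_smul, smul_eq_mul, mul_comm]
      exact h2
    have h2 : ((y, z) : Y × ℝ) = 0 := by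
      apply L.injective
      rw [h1, map_zero]
    exact ⟨congrArg Prod.fst h2, congrArg Prod.snd h2⟩
  have hfr : finrank ℝ Y + 1 = d := by
    have h1 := L.finrank_eq
    rw [Module.finrank_prod, Module.finrank_self, hX] at h1
    exact h1
  have hY0 : 0 < finrank ℝ Y := by omega
  have hYm : (finrank ℝ Y : ℝ) = (d : ℝ) - 1 := by
    rw [← hfr]
    push_cast
    ring
  have hd1 : (1 : ℝ) ≤ (d : ℝ) - 1 := by
    have : (2 : ℝ) ≤ (d : ℝ) := by exact_mod_cast hd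
    linarith
  have hsq : ∀ a b : ι → ℝ, √(VS μ φ a * VS μ φ b) = c * √(VB ν β q a * VB ν β q b) := by
    intro a b
    rw [hc, hc, show c * VB ν β q a * (c * VB ν β q b) = c ^ 2 * (VB ν β q a * VB ν β q b) by ring,
      Real.sqrt_mul (sq_nonneg c), Real.sqrt_sq hc0.le]
  have hb0 : 0 < VB ν β q (gm hp1 hm1) := (vo0 Y ι ν β q hB _ (gm_pos hp10 hm10)).1
  obtain ⟨t, ht⟩ : ∃ t : ℝ, t = √(VB ν β q hp1 * VB ν β q hm1) / VB ν β q (gm hp1 hm1) := ⟨_, rfl⟩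
  have ht1 : √(VB ν β q hp1 * VB ν β q hm1) = t * VB ν β q (gm hp1 hm1) := by
    rw [ht, div_mul_cancel₀ _ hb0.ne']
  have hθt : θ ≤ t := by
    rw [hsq, hc, ht1] at hR1
    have h1 : (c * VB ν β q (gm hp1 hm1)) * θ ≤ (c * VB ν β q (gm hp1 hm1)) * t := by linarith
    exact le_of_mul_le_mul_left h1 (mul_pos hc0 hb0)
  obtain ⟨hp', hm', hp'0, hm'0, hI⟩ := imp Y ι ν β q hB hY0 hp1 hm1 hp10 hm10 hPW t
    (lt_of_lt_of_le hθ hθt) ht1
  refine pr_mono μ φ (θ := t + (t - 1) ^ 2 / (4 * ((d : ℝ) - 1) * t)) ⟨hp', hm', hp'0, hm'0, ?_⟩ ?_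
  · rw [hsq, hc]
    rw [hYm] at hI
    calc _ = c * ((t + (t - 1) ^ 2 / (4 * ((d : ℝ) - 1) * t)) * VB ν β q (gm hp' hm')) := by ring
      _ ≤ _ := mul_le_mul_of_nonneg_left hI hc0.le
  · have hθ0 : 0 < θ := by linarith
    have ht0 : 0 < t := by linarith
    have hm0' : 0 < (d : ℝ) - 1 := by linarith
    have h1 : (θ - 1) ^ 2 / (4 * ((d : ℝ) - 1) * θ) =
        (1 / (4 * ((d : ℝ) - 1))) * ((θ - 1) ^ 2 / θ) := by
      field_simp
    have h2 : (t - 1) ^ 2 / (4 * ((d : ℝ) - 1) * t) =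
        (1 / (4 * ((d : ℝ) - 1))) * ((t - 1) ^ 2 / t) := by
      field_simp
    rw [h1, h2]
    have h3 : (θ - 1) ^ 2 / θ ≤ (t - 1) ^ 2 / t := by
      rw [div_le_div_iff₀ hθ0 ht0]
      have : 0 ≤ (t - θ) * (t * θ - 1) := mul_nonneg (by linarith) (by nlinarith)
      nlinarith
    have h4 : 0 ≤ 1 / (4 * ((d : ℝ) - 1)) := by positivity
    have h5 := mul_le_mul_of_nonneg_left h3 h4
    linarith

/-- no pair has ratio larger than one -/
theorem pr_bound (pos : ST_POS) (bnd : ST_BND) (tig : ST_TIG) (prp : ST_PRP) (lin : ST_LIN)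
    (vo0 : ST_VO0) (imp : ST_IMP) (d : ℕ) (hd : 2 ≤ d) (pw : PWd d) (hX : finrank ℝ X = d)
    (hsep : Sep φ) (hne : ∀ u, φ u ≠ 0) (θ : ℝ) (hθ : 1 < θ) : ¬ Pr μ φ θ := by
  intro h
  obtain ⟨C, hC⟩ := bnd X ι μ φ hsep
  have hup : ∀ t : ℝ, 0 ≤ t → Pr μ φ t → t ≤ √C := by
    rintro t ht ⟨hp, hm, hp0, hm0, hR⟩
    have hg0 : 0 < VS μ φ (gm hp hm) := (pos X ι μ φ _ hsep (gm_pos hp0 hm0)).2.2.1
    apply Real.le_sqrt_of_sq_le
    have h1 : (t * VS μ φ (gm hp hm)) ^ 2 ≤ VS μ φ hp * VS μ φ hm := by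
      rw [← Real.sq_sqrt (mul_nonneg (vs_nonneg μ φ hp) (vs_nonneg μ φ hm))]
      exact pow_le_pow_left₀ (mul_nonneg ht hg0.le) hR 2
    have h2 : t ^ 2 * (VS μ φ (gm hp hm)) ^ 2 ≤ C * (VS μ φ (gm hp hm)) ^ 2 := by
      calc _ = (t * VS μ φ (gm hp hm)) ^ 2 := by ring
        _ ≤ _ := h1.trans (hC hp hm hp0 hm0)
    exact le_of_mul_le_mul_right h2 (by positivity)
  have hm0' : 0 < (d : ℝ) - 1 := by
    have : (2 : ℝ) ≤ (d : ℝ) := by exact_mod_cast hd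
    linarith
  have hB0 : 0 < √C := lt_of_lt_of_le (by linarith) (hup θ (by linarith) h)
  obtain ⟨η, hη⟩ : ∃ η : ℝ, η = (θ - 1) ^ 2 / (4 * ((d : ℝ) - 1) * √C) := ⟨_, rfl⟩
  have hη0 : 0 < η := by
    rw [hη]
    have : 0 < θ - 1 := by linarith
    positivity
  have hall : ∀ n : ℕ, Pr μ φ (θ + n * η) := by
    intro n
    induction n with
    | zero => simpa using h
    | succ n ih =>
      have hge : θ ≤ θ + n * η := by
        have : 0 ≤ (n : ℝ) * η := by positivity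
        linarith
      have h1 : 1 < θ + n * η := by linarith
      have h2 := pr_step μ φ pos tig prp lin vo0 imp d hd pw hX hsep hne _ h1 ih
      refine pr_mono μ φ h2 ?_
      have h3 : θ + n * η ≤ √C := hup _ (by linarith) ih
      have h4 : η ≤ (θ + n * η - 1) ^ 2 / (4 * ((d : ℝ) - 1) * (θ + n * η)) := by
        obtain ⟨x, hx⟩ : ∃ x : ℝ, x = θ + n * η := ⟨_, rfl⟩
        rw [← hx] at h3 hge h1 ⊢
        rw [hη]
        have h5 : (θ - 1) ^ 2 ≤ (x - 1) ^ 2 :=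
          pow_le_pow_left₀ (by linarith) (by linarith) 2
        have h6 : 0 < 4 * ((d : ℝ) - 1) := by linarith
        have h7 : 4 * ((d : ℝ) - 1) * x ≤ 4 * ((d : ℝ) - 1) * √C :=
          mul_le_mul_of_nonneg_left h3 h6.le
        calc (θ - 1) ^ 2 / (4 * ((d : ℝ) - 1) * √C)
            ≤ (x - 1) ^ 2 / (4 * ((d : ℝ) - 1) * √C) :=
              div_le_div_of_nonneg_right h5 (mul_pos h6 hB0).le
          _ ≤ (x - 1) ^ 2 / (4 * ((d : ℝ) - 1) * x) :=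
              div_le_div_of_nonneg_left (sq_nonneg _) (mul_pos h6 (by linarith)) h7
      push_cast
      linarith
  obtain ⟨n, hn⟩ := exists_nat_gt ((√C - θ) / η)
  have h1 := hup _ (by have : 0 ≤ (n : ℝ) * η := by positivity
                       linarith) (hall n)
  rw [div_lt_iff₀ hη0] at hn
  linarith

end

/-- Row SUP -/
theorem st_SUP (pos : ST_POS) (bnd : ST_BND) (tig : ST_TIG) (prp : ST_PRP) (lin : ST_LIN)
    (vo0 : ST_VO0) (imp : ST_IMP) : ST_SUP := by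
  intro d hd pw X ι _ _ _ _ _ μ _ _ φ hX hsep hp hm hp0 hm0
  classical
  -- the functionals which are not zero
  obtain ⟨φ', hφ'⟩ : ∃ φ' : {u // φ u ≠ 0} → X →ₗ[ℝ] ℝ, φ' = fun u => φ u.1 := ⟨_, rfl⟩
  have hK : ∀ h : ι → ℝ, (∀ u, 0 < h u) → KS φ' (fun u => h u.1) = KS φ h := by
    intro h h0
    ext x
    constructor
    · intro hx u
      by_cases hu : φ u = 0
      · rw [hu, LinearMap.zero_apply, abs_zero]
        exact (h0 u).le
      · have := hx ⟨u, hu⟩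
        rw [hφ'] at this
        exact this
    · intro hx u
      rw [hφ']
      exact hx u.1
  have hV : ∀ h : ι → ℝ, (∀ u, 0 < h u) → VS μ φ' (fun u => h u.1) = VS μ φ h := by
    intro h h0
    unfold VS
    rw [hK h h0]
  have hsep' : Sep φ' := by
    intro x hx
    apply hsep
    intro u
    by_cases hu : φ u = 0
    · rw [hu, LinearMap.zero_apply]
    · have := hx ⟨u, hu⟩
      rw [hφ'] at this
      exact this
  have hne : ∀ u, φ' u ≠ 0 := by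
    intro u
    rw [hφ']
    exact u.2
  by_contra hcon
  push Not at hcon
  have hg0 : 0 < VS μ φ (gm hp hm) := (pos X ι μ φ _ hsep (gm_pos hp0 hm0)).2.2.1
  have h1 : VS μ φ (gm hp hm) < √(VS μ φ hp * VS μ φ hm) :=
    Real.lt_sqrt_of_sq_lt hcon
  refine pr_bound μ φ' pos bnd tig prp lin vo0 imp d hd pw hX hsep' hne
    (√(VS μ φ hp * VS μ φ hm) / VS μ φ (gm hp hm)) ?_
    ⟨fun u => hp u.1, fun u => hm u.1, fun u => hp0 _, fun u => hm0 _, ?_⟩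
  · rw [one_lt_div hg0]
    exact h1
  · have h2 : gm (fun u : {u // φ u ≠ 0} => hp u.1) (fun u => hm u.1) =
        fun u => gm hp hm u.1 := rfl
    rw [h2, hV _ (gm_pos hp0 hm0), hV _ hp0, hV _ hm0, div_mul_cancel₀ _ hg0.ne']

end Pool.Agent.Helper25.LB3
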